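import Mathlib

/-!
# The functional volume product is not monotone along the Fokker-Planck flow

Take `f = exp (- x / 2)` on `[-1, -1 + 1/200] ∪ [7/4, 2]` and `f = 0` elsewhere. Its polar is
`min (exp (y - 1/2)) (exp (1 - 2 y))`, with barycenter `0`. By Hoeffding's lemma and Jensen's
inequality, `2 π (∫ f / m) √(1 - 9 δ / 2) ≤ ∫ f_t ∫ f_t° ≤ 2 π ∫ f / m` for
`δ = e^{-2t} / (2 (1 - e^{-2t}))` and `m = ∫ f exp (- δ z²)`.
-/

set_option autoImplicit false

namespace Pool.Agent.Results.MP_31abd3_an.NotMonotone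

open Set Filter MeasureTheory Topology Real

/-- The polar of a nonnegative function. -/
noncomputable def polar (f : ℝ → ℝ) (y : ℝ) : ℝ :=
  sInf {v | ∃ x, 0 < f x ∧ v = Real.exp (-(x * y)) / f x}

/-- The functional volume product, with values in `[0, ∞]`. -/
noncomputable def volProd (f : ℝ → ℝ) : ENNReal :=
  (∫⁻ x, ENNReal.ofReal (f x)) * ∫⁻ y, ENNReal.ofReal (polar f y)

/-- A nonnegative function with finite positive integral and barycenter `0`. -/
def Centered (g : ℝ → ℝ) : Prop :=
  (∀ x, 0 ≤ g x) ∧ Integrable g ∧ 0 < ∫ x, g x ∧ Integrable (fun x => x * g x) ∧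
    ∫ x, x * g x = 0

/-- The kernel of the Fokker-Planck semigroup. -/
noncomputable def ker (t x z : ℝ) : ℝ :=
  (√(2 * π * (1 - Real.exp (-2 * t))))⁻¹ *
    Real.exp (-(x - Real.exp (-t) * z) ^ 2 / (2 * (1 - Real.exp (-2 * t))))

/-- The Fokker-Planck evolution. -/
noncomputable def fp (f : ℝ → ℝ) (t x : ℝ) : ℝ :=
  if t = 0 then f x else ∫ z, f z * ker t x z

section weights

/-- The weights used below: bounded measurable functions supported in `[-1, 2]`. -/
structure Wt (g : ℝ → ℝ) : Prop where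
  meas : Measurable g
  nonneg : ∀ z, 0 ≤ g z
  bdd : ∀ z, g z ≤ 2
  supp : ∀ z, z ∉ Icc (-1 : ℝ) 2 → g z = 0
  pos : 0 < ∫ z, g z

theorem Wt.integrable_mul {g : ℝ → ℝ} (hg : Wt g) {φ : ℝ → ℝ} (hφ : Continuous φ) :
    Integrable (fun z => g z * φ z) := by
  have hs : Function.support (fun z => g z * φ z) ⊆ Icc (-1 : ℝ) 2 := by
    intro z hz
    by_contra h
    exact hz (by simp [hg.supp z h])
  rw [← integrableOn_iff_integrable_of_support_subset hs]
  obtain ⟨C, hC⟩ := (isCompact_Icc (a := (-1 : ℝ)) (b := 2)).exists_bound_of_continuousOn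
    hφ.continuousOn
  refine Measure.integrableOn_of_bounded (M := 2 * C) isCompact_Icc.measure_lt_top.ne
    (hg.meas.mul hφ.measurable).aestronglyMeasurable ?_
  refine (ae_restrict_iff' measurableSet_Icc).2 (Eventually.of_forall fun z hz => ?_)
  rw [norm_mul, Real.norm_of_nonneg (hg.nonneg z)]
  exact mul_le_mul (hg.bdd z) (hC z hz) (norm_nonneg _) (by norm_num)

theorem Wt.integrable {g : ℝ → ℝ} (hg : Wt g) : Integrable g := by
  have := hg.integrable_mul (φ := fun _ => 1) continuous_const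
  simpa using this

/-- The mean of a weight. -/
noncomputable def mean (g : ℝ → ℝ) : ℝ := (∫ z, g z * z) / ∫ z, g z

theorem jensen {g : ℝ → ℝ} (hg : Wt g) (s : ℝ) :
    (∫ z, g z) * Real.exp (s * mean g) ≤ ∫ z, g z * Real.exp (s * z) := by
  set b := mean g with hb
  have h1 : ∀ z, g z * (Real.exp (s * b) * (1 + s * (z - b))) ≤ g z * Real.exp (s * z) := by
    intro z
    refine mul_le_mul_of_nonneg_left ?_ (hg.nonneg z)
    have h2 := Real.add_one_le_exp (s * (z - b))
    have h3 : Real.exp (s * z) = Real.exp (s * b) * Real.exp (s * (z - b)) := by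
      rw [← Real.exp_add]
      ring_nf
    rw [h3]
    exact mul_le_mul_of_nonneg_left (by linarith) (Real.exp_pos _).le
  have h2 := integral_mono (hg.integrable_mul (by fun_prop)) (hg.integrable_mul (by fun_prop)) h1
  refine le_trans (le_of_eq ?_) h2
  have h3 : ∀ z, g z * (Real.exp (s * b) * (1 + s * (z - b))) =
      (Real.exp (s * b) * (1 - s * b)) * g z + (Real.exp (s * b) * s) * (g z * z) := by
    intro z
    ring
  simp_rw [h3]
  rw [integral_add (hg.integrable.const_mul _)
    ((hg.integrable_mul (φ := fun z => z) continuous_id).const_mul _),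
    integral_const_mul, integral_const_mul]
  have h4 : ∫ z, g z * z = b * ∫ z, g z := by
    rw [hb, mean, div_mul_cancel₀ _ hg.pos.ne']
  rw [h4]
  ring

theorem hoeffding {g : ℝ → ℝ} (hg : Wt g) (s : ℝ) :
    ∫ z, g z * Real.exp (s * z) ≤ (∫ z, g z) * Real.exp (s * mean g + 9 * s ^ 2 / 8) := by
  have hc : ∫⁻ z, ENNReal.ofReal (g z) = ENNReal.ofReal (∫ z, g z) :=
    (ofReal_integral_eq_lintegral_ofReal hg.integrable
      (Eventually.of_forall hg.nonneg)).symm
  have hpos : ENNReal.ofReal (∫ z, g z) ≠ 0 := by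
    rw [Ne, ENNReal.ofReal_eq_zero, not_le]
    exact hg.pos
  set ν : Measure ℝ := (ENNReal.ofReal (∫ z, g z))⁻¹ •
    (volume : Measure ℝ).withDensity (fun z => ENNReal.ofReal (g z)) with hν
  have hprob : IsProbabilityMeasure ν := by
    refine ⟨?_⟩
    rw [hν, Measure.smul_apply, withDensity_apply _ MeasurableSet.univ, Measure.restrict_univ, hc,
      smul_eq_mul, ENNReal.inv_mul_cancel hpos ENNReal.ofReal_ne_top]
  have hint : ∀ φ : ℝ → ℝ, ∫ z, φ z ∂ν = (∫ z, g z)⁻¹ * ∫ z, g z * φ z := by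
    intro φ
    rw [hν, integral_smul_measure, integral_withDensity_eq_integral_toReal_smul
      (hg.meas.ennreal_ofReal) (Eventually.of_forall fun z => ENNReal.ofReal_lt_top),
      ENNReal.toReal_inv, ENNReal.toReal_ofReal hg.pos.le, smul_eq_mul]
    congr 1
    refine integral_congr_ae (Eventually.of_forall fun z => ?_)
    simp only [ENNReal.toReal_ofReal (hg.nonneg z), smul_eq_mul]
  have hmem : ∀ᵐ z ∂ν, id z ∈ Icc (-1 : ℝ) 2 := by
    rw [hν]
    refine Measure.ae_smul_measure ?_ _
    rw [ae_withDensity_iff hg.meas.ennreal_ofReal]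
    refine Eventually.of_forall fun z hz => ?_
    by_contra h
    exact hz (by rw [hg.supp z h, ENNReal.ofReal_zero])
  have hsub := ProbabilityTheory.hasSubgaussianMGF_of_mem_Icc (μ := ν) (X := id)
    aemeasurable_id hmem
  have h1 := hsub.mgf_le s
  have hmean : ∫ z, id z ∂ν = mean g := by
    rw [hint, mean, div_eq_inv_mul]
    rfl
  rw [ProbabilityTheory.mgf] at h1
  simp only [id_eq] at hmean h1
  rw [hmean, hint] at h1
  have h2 : ∫ z, g z * Real.exp (s * (z - mean g)) =
      Real.exp (-(s * mean g)) * ∫ z, g z * Real.exp (s * z) := by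
    rw [← integral_const_mul]
    refine integral_congr_ae (Eventually.of_forall fun z => ?_)
    dsimp only
    rw [show s * (z - mean g) = -(s * mean g) + s * z by ring, Real.exp_add]
    ring
  rw [h2] at h1
  have h3 : (((‖(2 : ℝ) - (-1)‖₊ / 2) ^ 2 : NNReal) : ℝ) * s ^ 2 / 2 = 9 * s ^ 2 / 8 := by
    have : ‖(2 : ℝ) - (-1)‖ = 3 := by norm_num
    push_cast
    rw [this]
    ring
  rw [h3] at h1
  have h4 : ∫ z, g z * Real.exp (s * z) = (∫ z, g z) * Real.exp (s * mean g) *
      ((∫ z, g z)⁻¹ * (Real.exp (-(s * mean g)) * ∫ z, g z * Real.exp (s * z))) := by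
    rw [Real.exp_neg]
    have := hg.pos.ne'
    have := (Real.exp_pos (s * mean g)).ne'
    field_simp
  rw [h4, Real.exp_add]
  refine le_of_le_of_eq (mul_le_mul_of_nonneg_left h1
    (mul_nonneg hg.pos.le (Real.exp_pos _).le)) ?_
  ring

end weights

section evolution

/-- The mass of `f` against a Gaussian. -/
noncomputable def gw (f : ℝ → ℝ) (δ z : ℝ) : ℝ := f z * Real.exp (-(δ * z ^ 2))

theorem gw_wt {f : ℝ → ℝ} (hf : Wt f) {δ : ℝ} (hδ : 0 ≤ δ) : Wt (gw f δ) := by
  have hexp : ∀ z : ℝ, Real.exp (-(δ * z ^ 2)) ≤ 1 := fun z =>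
    Real.exp_le_one_iff.2 (by nlinarith [mul_nonneg hδ (sq_nonneg z)])
  have hcont : Continuous fun z : ℝ => Real.exp (-(δ * z ^ 2)) := by fun_prop
  refine ⟨hf.meas.mul hcont.measurable, fun z => mul_nonneg (hf.nonneg z) (Real.exp_pos _).le,
    fun z => ?_, fun z hz => by rw [gw, hf.supp z hz, zero_mul], ?_⟩
  · have := mul_le_mul (hf.bdd z) (hexp z) (Real.exp_pos _).le (by norm_num)
    unfold gw
    linarith
  · have h1 : ∫ z, f z * Real.exp (-(4 * δ)) ≤ ∫ z, gw f δ z := by
      refine integral_mono (hf.integrable.mul_const _) (hf.integrable_mul hcont) fun z => ?_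
      dsimp only [gw]
      by_cases hz : z ∈ Icc (-1 : ℝ) 2
      · refine mul_le_mul_of_nonneg_left (Real.exp_le_exp.2 ?_) (hf.nonneg z)
        have : z ^ 2 ≤ 4 := by nlinarith [hz.1, hz.2]
        nlinarith
      · rw [hf.supp z hz, zero_mul, zero_mul]
    rw [integral_mul_const] at h1
    exact lt_of_lt_of_le (mul_pos hf.pos (Real.exp_pos _)) h1

theorem var_pos {t : ℝ} (ht : 0 < t) : 0 < 1 - Real.exp (-2 * t) := by
  have : Real.exp (-2 * t) < 1 := by
    rw [Real.exp_lt_one_iff]
    linarith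
  linarith

theorem exp_sq (t : ℝ) : Real.exp (-t) ^ 2 = Real.exp (-2 * t) := by
  rw [← Real.exp_nat_mul]
  congr 1
  push_cast
  ring

/-- The factor `δ = e^{-2t} / (2 (1 - e^{-2t}))`. -/
noncomputable def del (t : ℝ) : ℝ := Real.exp (-2 * t) / (2 * (1 - Real.exp (-2 * t)))

/-- The slope `s = e^{-t} x / (1 - e^{-2t})`. -/
noncomputable def slp (t x : ℝ) : ℝ := Real.exp (-t) * x / (1 - Real.exp (-2 * t))

theorem del_nonneg {t : ℝ} (ht : 0 < t) : 0 ≤ del t := by
  have := var_pos ht
  unfold del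
  positivity

theorem ker_eq {t : ℝ} (ht : 0 < t) (x z : ℝ) :
    ker t x z = (√(2 * π * (1 - Real.exp (-2 * t))))⁻¹ *
      Real.exp (-(x ^ 2 / (2 * (1 - Real.exp (-2 * t))))) *
        (Real.exp (-(del t * z ^ 2)) * Real.exp (slp t x * z)) := by
  have hv := (var_pos ht).ne'
  have h : Real.exp (-(x - Real.exp (-t) * z) ^ 2 / (2 * (1 - Real.exp (-2 * t)))) =
      Real.exp (-(x ^ 2 / (2 * (1 - Real.exp (-2 * t))))) *
        (Real.exp (-(del t * z ^ 2)) * Real.exp (slp t x * z)) := by
    rw [← Real.exp_add, ← Real.exp_add]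
    congr 1
    unfold del slp
    rw [← exp_sq] at hv ⊢
    field_simp
    ring
  rw [ker, h]
  ring

theorem fp_eq (f : ℝ → ℝ) {t : ℝ} (ht : 0 < t) (x : ℝ) :
    fp f t x = (√(2 * π * (1 - Real.exp (-2 * t))))⁻¹ *
      Real.exp (-(x ^ 2 / (2 * (1 - Real.exp (-2 * t))))) *
        ∫ z, gw f (del t) z * Real.exp (slp t x * z) := by
  rw [fp, if_neg ht.ne', ← integral_const_mul]
  refine integral_congr_ae (Eventually.of_forall fun z => ?_)
  dsimp only [gw]
  rw [ker_eq ht]
  ring

/-- Bounds for the evolution. -/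
theorem fp_bounds {f : ℝ → ℝ} (hf : Wt f) {t : ℝ} (ht : 0 < t) (x : ℝ) :
    let c := (√(2 * π * (1 - Real.exp (-2 * t))))⁻¹ * ∫ z, gw f (del t) z
    let v := 1 - Real.exp (-2 * t)
    let b := mean (gw f (del t))
    c * Real.exp (-(x ^ 2 / (2 * v)) + slp t x * b) ≤ fp f t x ∧
      fp f t x ≤ c * Real.exp (-(x ^ 2 / (2 * v)) + slp t x * b + 9 * slp t x ^ 2 / 8) := by
  intro c v b
  have hg := gw_wt hf (del_nonneg ht)
  have h1 := jensen hg (slp t x)
  have h2 := hoeffding hg (slp t x)
  have hA : 0 ≤ (√(2 * π * v))⁻¹ * Real.exp (-(x ^ 2 / (2 * v))) := by positivity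
  rw [fp_eq f ht]
  constructor
  · refine le_trans (le_of_eq ?_) (mul_le_mul_of_nonneg_left h1 hA)
    rw [Real.exp_add]
    ring
  · refine le_trans (mul_le_mul_of_nonneg_left h2 hA) (le_of_eq ?_)
    rw [Real.exp_add, Real.exp_add, Real.exp_add]
    ring

theorem fp_pos {f : ℝ → ℝ} (hf : Wt f) {t : ℝ} (ht : 0 < t) (x : ℝ) : 0 < fp f t x := by
  have h := (fp_bounds hf ht x).1
  have hg := gw_wt hf (del_nonneg ht)
  have hv := var_pos ht
  have := hg.pos
  refine lt_of_lt_of_le ?_ h
  positivity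

theorem polar_nonneg {g : ℝ → ℝ} (y : ℝ) : 0 ≤ polar g y := by
  apply Real.sInf_nonneg
  rintro v ⟨x, hx, rfl⟩
  positivity

theorem polar_le {g : ℝ → ℝ} {x : ℝ} (hx : 0 < g x) (y : ℝ) :
    polar g y ≤ Real.exp (-(x * y)) / g x := by
  apply csInf_le
  · refine ⟨0, ?_⟩
    rintro v ⟨x, hx, rfl⟩
    positivity
  · exact ⟨x, hx, rfl⟩

theorem le_polar {g : ℝ → ℝ} (hg : ∃ x, 0 < g x) {y a : ℝ}
    (h : ∀ x, 0 < g x → a ≤ Real.exp (-(x * y)) / g x) : a ≤ polar g y := by
  obtain ⟨x, hx⟩ := hg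
  apply le_csInf
  · exact ⟨_, x, hx, rfl⟩
  · rintro v ⟨x, hx, rfl⟩
    exact h x hx

/-- The integral of a shifted Gaussian. -/
theorem lintegral_gauss {k a c : ℝ} (hk : 0 ≤ k) (ha : 0 < a) :
    ∫⁻ y, ENNReal.ofReal (k * Real.exp (-a * (y + c) ^ 2)) = ENNReal.ofReal (k * √(π / a)) := by
  have hi : Integrable fun y : ℝ => k * Real.exp (-a * (y + c) ^ 2) :=
    ((integrable_exp_neg_mul_sq ha).comp_add_right c).const_mul k
  rw [← ofReal_integral_eq_lintegral_ofReal hi
    (Eventually.of_forall fun y => mul_nonneg hk (Real.exp_pos _).le), integral_const_mul,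
    integral_add_right_eq_self (fun y : ℝ => Real.exp (-a * y ^ 2)) c, integral_gaussian]

theorem lintegral_polar_le {f : ℝ → ℝ} (hf : Wt f) {t : ℝ} (ht : 0 < t) :
    ∫⁻ y, ENNReal.ofReal (polar (fp f t) y) ≤
      ENNReal.ofReal (2 * π / ∫ z, gw f (del t) z) := by
  have hg := gw_wt hf (del_nonneg ht)
  have hm := hg.pos
  have hv := var_pos ht
  set v := 1 - Real.exp (-2 * t) with hvd
  set m := ∫ z, gw f (del t) z with hmd
  set b := mean (gw f (del t)) with hb
  set r := Real.exp (-t) * b / v with hr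
  have hpt : ∀ y, polar (fp f t) y ≤ √(2 * π * v) / m * Real.exp (-(v / 2) * (y + r) ^ 2) := by
    intro y
    set x := v * (y + r) with hx
    have h1 := (fp_bounds hf ht x).1
    have h2 := fp_pos hf ht x
    have h3 : 0 < (√(2 * π * v))⁻¹ * m * Real.exp (-(x ^ 2 / (2 * v)) + slp t x * b) := by
      positivity
    refine (polar_le h2 y).trans ((div_le_div_of_nonneg_left (Real.exp_pos _).le h3 h1).trans
      (le_of_eq ?_))
    have h4 : Real.exp (-(x * y)) = Real.exp (-(x ^ 2 / (2 * v)) + slp t x * b) *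
        Real.exp (-(v / 2) * (y + r) ^ 2) := by
      rw [← Real.exp_add]
      congr 1
      unfold slp
      rw [← hvd, hx, hr]
      field_simp
      ring
    rw [h4]
    have h5 := (Real.exp_pos (-(x ^ 2 / (2 * v)) + slp t x * b)).ne'
    have h6 : √(2 * π * v) ≠ 0 := by positivity
    field_simp
  calc ∫⁻ y, ENNReal.ofReal (polar (fp f t) y)
      ≤ ∫⁻ y, ENNReal.ofReal (√(2 * π * v) / m * Real.exp (-(v / 2) * (y + r) ^ 2)) :=
        lintegral_mono fun y => ENNReal.ofReal_le_ofReal (hpt y)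
    _ = ENNReal.ofReal (√(2 * π * v) / m * √(π / (v / 2))) :=
        lintegral_gauss (by positivity) (by positivity)
    _ = ENNReal.ofReal (2 * π / m) := by
        congr 1
        rw [div_mul_eq_mul_div, ← Real.sqrt_mul (by positivity)]
        congr 1
        have : 2 * π * v * (π / (v / 2)) = (2 * π) ^ 2 := by field_simp
        rw [this, Real.sqrt_sq (by positivity)]

theorem le_lintegral_polar {f : ℝ → ℝ} (hf : Wt f) {t : ℝ} (ht : 0 < t)
    (hδ : 0 < 1 - 9 * del t / 2) :
    ENNReal.ofReal (2 * π / (∫ z, gw f (del t) z) * √(1 - 9 * del t / 2)) ≤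
      ∫⁻ y, ENNReal.ofReal (polar (fp f t) y) := by
  have hg := gw_wt hf (del_nonneg ht)
  have hm := hg.pos
  have hv := var_pos ht
  set v := 1 - Real.exp (-2 * t) with hvd
  set m := ∫ z, gw f (del t) z with hmd
  set b := mean (gw f (del t)) with hb
  set r := Real.exp (-t) * b / v with hr
  set k := 1 - 9 * del t / 2 with hk
  have hdel : Real.exp (-t) ^ 2 = del t * (2 * v) := by
    rw [exp_sq, del, ← hvd, div_mul_cancel₀ _ (by positivity)]
  have hpt : ∀ y, √(2 * π * v) / m * Real.exp (-(v / (2 * k)) * (y + r) ^ 2) ≤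
      polar (fp f t) y := by
    intro y
    refine le_polar ⟨0, fp_pos hf ht 0⟩ fun x hx => ?_
    have h1 := (fp_bounds hf ht x).2
    have h3 : √(2 * π * v) / m * Real.exp (-(v / (2 * k)) * (y + r) ^ 2) *
        ((√(2 * π * v))⁻¹ * m *
          Real.exp (-(x ^ 2 / (2 * v)) + slp t x * b + 9 * slp t x ^ 2 / 8)) =
        Real.exp (-(v / (2 * k)) * (y + r) ^ 2 +
          (-(x ^ 2 / (2 * v)) + slp t x * b + 9 * slp t x ^ 2 / 8)) := by
      rw [Real.exp_add (-(v / (2 * k)) * (y + r) ^ 2)]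
      have h6 : √(2 * π * v) ≠ 0 := by positivity
      field_simp
    rw [le_div_iff₀ hx]
    refine (mul_le_mul_of_nonneg_left h1 (by positivity)).trans ?_
    rw [h3]
    apply Real.exp_le_exp.2
    have h7 : slp t x ^ 2 = 2 * del t * x ^ 2 / v := by
      unfold slp
      rw [← hvd, div_pow, mul_pow, hdel]
      field_simp
    have h8 : slp t x * b = x * r := by
      unfold slp
      rw [← hvd, hr]
      ring
    rw [h7, h8]
    have h9 : del t = 2 * (1 - k) / 9 := by rw [hk]; ring
    rw [h9]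
    have h10 : -(v / (2 * k)) * (y + r) ^ 2 +
        (-(x ^ 2 / (2 * v)) + x * r + 9 * (2 * (2 * (1 - k) / 9) * x ^ 2 / v) / 8) - -(x * y) =
        -(1 / (2 * k * v)) * (v * (y + r) - k * x) ^ 2 := by
      field_simp
      ring
    have h11 : 0 ≤ 1 / (2 * k * v) * (v * (y + r) - k * x) ^ 2 := by positivity
    linarith
  calc ENNReal.ofReal (2 * π / m * √k) = ENNReal.ofReal (√(2 * π * v) / m *
          √(π / (v / (2 * k)))) := by
        congr 1
        rw [div_mul_eq_mul_div, div_mul_eq_mul_div, ← Real.sqrt_mul (by positivity)]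
        congr 1
        have : 2 * π * v * (π / (v / (2 * k))) = (2 * π) ^ 2 * k := by field_simp
        rw [this, Real.sqrt_mul (by positivity), Real.sqrt_sq (by positivity)]
    _ = ∫⁻ y, ENNReal.ofReal (√(2 * π * v) / m * Real.exp (-(v / (2 * k)) * (y + r) ^ 2)) :=
        (lintegral_gauss (by positivity) (by positivity)).symm
    _ ≤ _ := lintegral_mono fun y => ENNReal.ofReal_le_ofReal (hpt y)

/-- Conservation of mass. -/
theorem lintegral_fp {f : ℝ → ℝ} (hf : Wt f) {t : ℝ} (ht : 0 < t) :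
    ∫⁻ x, ENNReal.ofReal (fp f t x) = ENNReal.ofReal (∫ z, f z) := by
  have hv := var_pos ht
  have hker : ∀ x z, 0 ≤ ker t x z := fun x z => by unfold ker; positivity
  have hkc : Continuous fun p : ℝ × ℝ => ker t p.1 p.2 := by
    unfold ker
    fun_prop
  have h1 : ∀ x, ENNReal.ofReal (fp f t x) = ∫⁻ z, ENNReal.ofReal (f z * ker t x z) := by
    intro x
    rw [fp, if_neg ht.ne']
    refine ofReal_integral_eq_lintegral_ofReal (hf.integrable_mul ?_)
      (Eventually.of_forall fun z => mul_nonneg (hf.nonneg z) (hker x z))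
    exact hkc.comp (Continuous.prodMk_right x)
  simp_rw [h1]
  rw [lintegral_lintegral_swap]
  · have h2 : ∀ z, ∫⁻ x, ENNReal.ofReal (f z * ker t x z) = ENNReal.ofReal (f z) := by
      intro z
      have h3 : ∀ x, f z * ker t x z = f z * (√(2 * π * (1 - Real.exp (-2 * t))))⁻¹ *
          Real.exp (-(1 / (2 * (1 - Real.exp (-2 * t)))) * (x + -(Real.exp (-t) * z)) ^ 2) := by
        intro x
        have h : -(x - Real.exp (-t) * z) ^ 2 / (2 * (1 - Real.exp (-2 * t))) =
            -(1 / (2 * (1 - Real.exp (-2 * t)))) * (x + -(Real.exp (-t) * z)) ^ 2 := by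
          ring
        rw [ker, h]
        ring
      simp_rw [h3]
      rw [lintegral_gauss (mul_nonneg (hf.nonneg z) (by positivity)) (by positivity)]
      congr 1
      have h4 : π / (1 / (2 * (1 - Real.exp (-2 * t)))) = 2 * π * (1 - Real.exp (-2 * t)) := by
        field_simp
      rw [h4, mul_assoc, inv_mul_cancel₀ (by positivity), mul_one]
    simp_rw [h2]
    exact (ofReal_integral_eq_lintegral_ofReal hf.integrable
      (Eventually.of_forall hf.nonneg)).symm
  · refine Measurable.aemeasurable ?_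
    refine ENNReal.measurable_ofReal.comp ?_
    exact (hf.meas.comp measurable_snd).mul hkc.measurable

end evolution

section example_

/-- The support of the example. -/
def S : Set ℝ := Icc (-1) (-1 + 1 / 200) ∪ Icc (7 / 4) 2

/-- The example. -/
noncomputable def ff : ℝ → ℝ := S.indicator fun x => Real.exp (-(x / 2))

theorem S_meas : MeasurableSet S := measurableSet_Icc.union measurableSet_Icc

theorem ff_of_mem {x : ℝ} (hx : x ∈ S) : ff x = Real.exp (-(x / 2)) := indicator_of_mem hx _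

theorem ff_of_notMem {x : ℝ} (hx : x ∉ S) : ff x = 0 := indicator_of_notMem hx _

theorem S_sub {x : ℝ} (hx : x ∈ S) : x ∈ Icc (-1 : ℝ) 2 := by
  rcases hx with h | h
  · exact ⟨h.1, by linarith [h.2]⟩
  · exact ⟨by linarith [h.1], h.2⟩

theorem exp_half_le : Real.exp (1 / 2) ≤ 1.65 := by
  have h1 : Real.exp (1 / 2) * Real.exp (1 / 2) = Real.exp 1 := by
    rw [← Real.exp_add]
    norm_num
  have h2 := Real.exp_one_lt_d9
  have h3 := Real.exp_pos (1 / 2)
  nlinarith

theorem exp_neg_one_ge : (0.3678 : ℝ) ≤ Real.exp (-1) := by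
  rw [Real.exp_neg]
  have h2 := Real.exp_one_lt_d9
  rw [le_inv_comm₀ (by norm_num) (Real.exp_pos 1)]
  refine h2.le.trans ?_
  norm_num

theorem ff_nonneg (x : ℝ) : 0 ≤ ff x := indicator_nonneg (fun _ _ => (Real.exp_pos _).le) x

theorem ff_le (x : ℝ) : ff x ≤ 1.65 := by
  by_cases hx : x ∈ S
  · rw [ff_of_mem hx]
    refine le_trans (Real.exp_le_exp.2 ?_) exp_half_le
    linarith [(S_sub hx).1]
  · rw [ff_of_notMem hx]
    norm_num

theorem ff_meas : Measurable ff :=
  (show Measurable fun x : ℝ => Real.exp (-(x / 2)) by fun_prop).indicator S_meas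

theorem ff_integrable : Integrable ff := by
  rw [ff, integrable_indicator_iff S_meas]
  have hc : ContinuousOn (fun x : ℝ => Real.exp (-(x / 2))) (Icc (-1) 2) :=
    (show Continuous fun x : ℝ => Real.exp (-(x / 2)) by fun_prop).continuousOn
  exact (hc.integrableOn_compact isCompact_Icc).mono_set fun x hx => S_sub hx

theorem mass_ge : 0.0919 ≤ ∫ x, ff x := by
  have h1 : ∫ x, (Icc (7 / 4 : ℝ) 2).indicator (fun _ => Real.exp (-1)) x ≤ ∫ x, ff x := by
    refine integral_mono ?_ ff_integrable fun x => ?_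
    · rw [integrable_indicator_iff measurableSet_Icc]
      exact integrableOn_const (by simp)
    · by_cases hx : x ∈ Icc (7 / 4 : ℝ) 2
      · rw [indicator_of_mem hx, ff_of_mem (Or.inr hx)]
        exact Real.exp_le_exp.2 (by linarith [hx.2])
      · rw [indicator_of_notMem hx]
        exact ff_nonneg x
  rw [integral_indicator measurableSet_Icc, setIntegral_const, smul_eq_mul, Real.volume_real_Icc,
    max_eq_left (by norm_num)] at h1
  have h2 := exp_neg_one_ge
  norm_num at h1 h2 ⊢
  linarith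

theorem ff_wt : Wt ff where
  meas := ff_meas
  nonneg := ff_nonneg
  bdd := fun z => (ff_le z).trans (by norm_num)
  supp := fun z hz => ff_of_notMem fun h => hz (S_sub h)
  pos := lt_of_lt_of_le (by norm_num) mass_ge

/-- The mass against a Gaussian, at the earlier time. -/
theorem weight_le : ∫ z, gw ff (1 / 20) z ≤ 0.875 * ∫ z, ff z := by
  have hexp : Real.exp (-(49 / 320)) ≤ 0.859 := by
    rw [Real.exp_neg, inv_le_comm₀ (Real.exp_pos _) (by norm_num)]
    refine le_trans ?_ (Real.quadratic_le_exp_of_nonneg (by norm_num))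
    norm_num
  have hi : Integrable fun x => (Icc (-1 : ℝ) (-1 + 1 / 200)).indicator (fun _ => (0.24 : ℝ)) x := by
    rw [integrable_indicator_iff measurableSet_Icc]
    exact integrableOn_const (by simp)
  have h1 : ∫ z, gw ff (1 / 20) z ≤ ∫ z, (0.859 * ff z +
      (Icc (-1 : ℝ) (-1 + 1 / 200)).indicator (fun _ => (0.24 : ℝ)) z) := by
    refine integral_mono (gw_wt ff_wt (by norm_num)).integrable
      ((ff_integrable.const_mul _).add hi) fun z => ?_
    dsimp only [gw]
    have hf0 := ff_nonneg z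
    by_cases hz : z ∈ Icc (-1 : ℝ) (-1 + 1 / 200)
    · rw [indicator_of_mem hz]
      have h2 : Real.exp (-(1 / 20 * z ^ 2)) ≤ 1 := Real.exp_le_one_iff.2 (by nlinarith)
      have h3 := ff_le z
      nlinarith
    · rw [indicator_of_notMem hz, add_zero]
      by_cases hz2 : z ∈ Icc (7 / 4 : ℝ) 2
      · have h2 : Real.exp (-(1 / 20 * z ^ 2)) ≤ 0.859 := by
          refine le_trans (Real.exp_le_exp.2 ?_) hexp
          nlinarith [hz2.1]
        nlinarith
      · rw [ff_of_notMem (fun h => h.elim hz hz2)]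
        simp
  rw [integral_add (ff_integrable.const_mul _) hi, integral_const_mul,
    integral_indicator measurableSet_Icc, setIntegral_const, smul_eq_mul, Real.volume_real_Icc,
    max_eq_left (by norm_num)] at h1
  have h2 := mass_ge
  norm_num at h1 h2 ⊢
  linarith

/-- The mass against a Gaussian, at the later time. -/
theorem weight_ge : 0.995 * ∫ z, ff z ≤ ∫ z, gw ff (1 / 800) z := by
  rw [← integral_const_mul]
  refine integral_mono (ff_integrable.const_mul _) (gw_wt ff_wt (by norm_num)).integrable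
    fun z => ?_
  dsimp only [gw]
  have hf0 := ff_nonneg z
  by_cases hz : z ∈ S
  · have h1 := Real.one_sub_le_exp_neg (1 / 800 * z ^ 2)
    have h2 := S_sub hz
    have h3 : z ^ 2 ≤ 4 := by nlinarith [h2.1, h2.2]
    have h4 : (0.995 : ℝ) ≤ Real.exp (-(1 / 800 * z ^ 2)) := by
      refine le_trans ?_ h1
      norm_num
      linarith
    nlinarith
  · rw [ff_of_notMem hz]
    simp

/-- The polar of the example. -/
theorem polar_ff (y : ℝ) : polar ff y = min (Real.exp (y - 1 / 2)) (Real.exp (1 - 2 * y)) := by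
  have hm1 : (-1 : ℝ) ∈ S := Or.inl ⟨le_rfl, by norm_num⟩
  have h2 : (2 : ℝ) ∈ S := Or.inr ⟨by norm_num, le_rfl⟩
  have hpos : ∀ x ∈ S, 0 < ff x := fun x hx => by
    rw [ff_of_mem hx]
    exact Real.exp_pos _
  have hval : ∀ x ∈ S, Real.exp (-(x * y)) / ff x = Real.exp (-(x * (y - 1 / 2))) := by
    intro x hx
    rw [ff_of_mem hx, ← Real.exp_sub]
    congr 1
    ring
  apply le_antisymm
  · apply le_min
    · refine (polar_le (hpos _ hm1) y).trans (le_of_eq ?_)
      rw [hval _ hm1]
      congr 1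
      ring
    · refine (polar_le (hpos _ h2) y).trans (le_of_eq ?_)
      rw [hval _ h2]
      congr 1
      ring
  · refine le_polar ⟨-1, hpos _ hm1⟩ fun x hx => ?_
    have hxS : x ∈ S := by
      by_contra h
      rw [ff_of_notMem h] at hx
      exact lt_irrefl _ hx
    rw [hval x hxS]
    have hxI := S_sub hxS
    rcases le_total y (1 / 2) with hy | hy
    · refine (min_le_left _ _).trans (Real.exp_le_exp.2 ?_)
      nlinarith [hxI.1]
    · refine (min_le_right _ _).trans (Real.exp_le_exp.2 ?_)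
      nlinarith [hxI.2]

/-- The polar, as a function. -/
noncomputable def P (y : ℝ) : ℝ := min (Real.exp (y - 1 / 2)) (Real.exp (1 - 2 * y))

theorem P_cont : Continuous P := by
  unfold P
  fun_prop

theorem P_pos (y : ℝ) : 0 < P y := lt_min (Real.exp_pos _) (Real.exp_pos _)

theorem P_le (y : ℝ) : P y ≤ 3 * Real.exp (-|y|) := by
  have h3 : Real.exp 1 ≤ 3 := by
    have := Real.exp_one_lt_d9
    linarith
  have h1 : P y ≤ Real.exp (1 + -|y|) := by
    rcases le_total 0 y with hy | hy
    · rw [abs_of_nonneg hy]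
      exact (min_le_right _ _).trans (Real.exp_le_exp.2 (by linarith))
    · rw [abs_of_nonpos hy]
      exact (min_le_left _ _).trans (Real.exp_le_exp.2 (by linarith))
  rw [Real.exp_add] at h1
  exact h1.trans (mul_le_mul_of_nonneg_right h3 (Real.exp_pos _).le)

theorem poly_exp_le {a : ℝ} (ha : 0 ≤ a) :
    Real.exp (-a) * (1 + a ^ 2) ≤ 3 ∧ a * Real.exp (-a) * (1 + a ^ 2) ≤ 7 := by
  have h0 := Real.pow_div_factorial_le_exp a ha 0
  have h1 := Real.pow_div_factorial_le_exp a ha 1
  have h2 := Real.pow_div_factorial_le_exp a ha 2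
  have h3 := Real.pow_div_factorial_le_exp a ha 3
  simp only [Nat.factorial, pow_zero, pow_one, Nat.cast_one, div_one, Nat.succ_eq_add_one,
    zero_add, mul_one, Nat.reduceAdd, Nat.reduceMul, Nat.cast_ofNat] at h0 h1 h2 h3
  have he : Real.exp (-a) * Real.exp a = 1 := by
    rw [← Real.exp_add]
    simp
  have hp := Real.exp_pos (-a)
  constructor
  · calc Real.exp (-a) * (1 + a ^ 2) ≤ Real.exp (-a) * (3 * Real.exp a) :=
        mul_le_mul_of_nonneg_left (by linarith) hp.le
      _ = 3 := by linear_combination 3 * he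
  · calc a * Real.exp (-a) * (1 + a ^ 2) = Real.exp (-a) * (a + a ^ 3) := by ring
      _ ≤ Real.exp (-a) * (7 * Real.exp a) := mul_le_mul_of_nonneg_left (by linarith) hp.le
      _ = 7 := by linear_combination 7 * he

theorem P_integrable : Integrable P := by
  refine (integrable_inv_one_add_sq.const_mul 9).mono' P_cont.aestronglyMeasurable
    (Eventually.of_forall fun y => ?_)
  rw [Real.norm_of_nonneg (P_pos y).le, ← div_eq_mul_inv, le_div_iff₀ (by positivity)]
  have h1 := P_le y
  have h2 := (poly_exp_le (abs_nonneg y)).1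
  rw [sq_abs] at h2
  have h3 : 0 ≤ 1 + y ^ 2 := by positivity
  nlinarith [mul_le_mul_of_nonneg_right h1 h3]

theorem yP_integrable : Integrable fun y => y * P y := by
  refine (integrable_inv_one_add_sq.const_mul 21).mono'
    (continuous_id.mul P_cont).aestronglyMeasurable (Eventually.of_forall fun y => ?_)
  rw [norm_mul, Real.norm_of_nonneg (P_pos y).le, Real.norm_eq_abs, ← div_eq_mul_inv,
    le_div_iff₀ (by positivity)]
  have h1 := mul_le_mul_of_nonneg_left (P_le y) (abs_nonneg y)
  have h2 := (poly_exp_le (abs_nonneg y)).2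
  rw [sq_abs] at h2
  have h3 : 0 ≤ 1 + y ^ 2 := by positivity
  nlinarith [mul_le_mul_of_nonneg_right h1 h3]

theorem integral_yP : ∫ y, y * P y = 0 := by
  rw [← intervalIntegral.integral_Iic_add_Ioi (b := 1 / 2) yP_integrable.integrableOn
    yP_integrable.integrableOn]
  have hl : ∀ y ∈ Iic (1 / 2 : ℝ), y * P y = y * Real.exp (y - 1 / 2) := by
    intro y hy
    rw [P, min_eq_left]
    rw [mem_Iic] at hy
    exact Real.exp_le_exp.2 (by linarith)
  have hr : ∀ y ∈ Ioi (1 / 2 : ℝ), y * P y = y * Real.exp (1 - 2 * y) := by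
    intro y hy
    rw [P, min_eq_right]
    rw [mem_Ioi] at hy
    exact Real.exp_le_exp.2 (by linarith)
  have e1 := Real.tendsto_pow_mul_exp_neg_atTop_nhds_zero 1
  have e0 := Real.tendsto_exp_neg_atTop_nhds_zero
  have h1 : ∫ y in Iic (1 / 2 : ℝ), y * P y = -(1 / 2) := by
    have hint : IntegrableOn (fun y : ℝ => y * Real.exp (y - 1 / 2)) (Iic (1 / 2)) :=
      yP_integrable.integrableOn.congr_fun hl measurableSet_Iic
    rw [setIntegral_congr_fun measurableSet_Iic hl,
      integral_Iic_of_hasDerivAt_of_tendsto' (f := fun y => (y - 1) * Real.exp (y - 1 / 2))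
        (m := 0) ?_ hint ?_]
    · norm_num
    · intro y _
      have h2 := ((hasDerivAt_id y).sub_const 1).mul (((hasDerivAt_id y).sub_const (1 / 2)).exp)
      convert! h2 using 1
      simp
      ring
    · have h3 : Tendsto (fun x : ℝ => (-x - 1) * Real.exp (-x - 1 / 2)) atTop (𝓝 0) := by
        have h4 := (e1.add e0).const_mul (-Real.exp (-(1 / 2)))
        rw [add_zero, mul_zero] at h4
        refine h4.congr fun x => ?_
        rw [sub_eq_add_neg (-x) (1 / 2), Real.exp_add]
        ring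
      have h5 := h3.comp tendsto_neg_atBot_atTop
      refine h5.congr fun y => ?_
      simp
  have h2 : ∫ y in Ioi (1 / 2 : ℝ), y * P y = 1 / 2 := by
    have hint : IntegrableOn (fun y : ℝ => y * Real.exp (1 - 2 * y)) (Ioi (1 / 2)) :=
      yP_integrable.integrableOn.congr_fun hr measurableSet_Ioi
    rw [setIntegral_congr_fun measurableSet_Ioi hr,
      integral_Ioi_of_hasDerivAt_of_tendsto'
        (f := fun y => -((1 / 2 * y + 1 / 4) * Real.exp (1 - 2 * y))) (m := 0) ?_ hint ?_]
    · norm_num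
    · intro y _
      have h2 := ((((hasDerivAt_id y).const_mul (1 / 2 : ℝ)).add_const (1 / 4 : ℝ)).mul
        (((hasDerivAt_id y).const_mul (2 : ℝ)).const_sub (1 : ℝ)).exp).neg
      convert! h2 using 1
      simp
      ring
    · have h4 := ((e1.mul e0).const_mul (-(Real.exp 1 / 2))).add
        ((e0.mul e0).const_mul (-(Real.exp 1 / 4)))
      rw [mul_zero, mul_zero, mul_zero, add_zero] at h4
      refine h4.congr fun x => ?_
      have : Real.exp (1 - 2 * x) = Real.exp 1 * (Real.exp (-x) * Real.exp (-x)) := by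
        rw [← Real.exp_add, ← Real.exp_add]
        congr 1
        ring
      rw [this]
      ring
  rw [h1, h2]
  norm_num

theorem centered_polar : Centered (polar ff) := by
  have h : polar ff = P := funext polar_ff
  rw [h]
  refine ⟨fun y => (P_pos y).le, P_integrable, ?_, yP_integrable, integral_yP⟩
  rw [integral_pos_iff_support_of_nonneg (fun y => (P_pos y).le) P_integrable]
  have : Function.support P = univ := by
    ext y
    simp [(P_pos y).ne']
  rw [this]
  simp

theorem exp_log_half {a : ℝ} (ha : 0 < a) : Real.exp (-2 * (Real.log a / 2)) = 1 / a := by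
  rw [show -2 * (Real.log a / 2) = -Real.log a by ring, Real.exp_neg, Real.exp_log ha, one_div]

end example_

/-- The functional volume product can strictly decrease along the Fokker-Planck flow, for an
`f` whose polar has barycenter `0`. -/
theorem result : ∃ f : ℝ → ℝ, Measurable f ∧ (∀ x, 0 ≤ f x) ∧ Integrable f ∧ 0 < ∫ x, f x ∧
    Centered (polar f) ∧
    ∃ t₁ t₂ : ℝ, 0 < t₁ ∧ t₁ < t₂ ∧ volProd (fp f t₂) < volProd (fp f t₁) := by
  refine ⟨ff, ff_meas, ff_nonneg, ff_integrable, ff_wt.pos, centered_polar, Real.log 11 / 2,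
    Real.log 401 / 2, ?_, ?_, ?_⟩
  · have := Real.log_pos (show (1 : ℝ) < 11 by norm_num)
    linarith
  · have := Real.log_lt_log (show (0 : ℝ) < 11 by norm_num) (show (11 : ℝ) < 401 by norm_num)
    linarith
  have ht1 : 0 < Real.log 11 / 2 := by
    have := Real.log_pos (show (1 : ℝ) < 11 by norm_num)
    linarith
  have ht2 : 0 < Real.log 401 / 2 := by
    have := Real.log_pos (show (1 : ℝ) < 401 by norm_num)
    linarith
  have hd1 : del (Real.log 11 / 2) = 1 / 20 := by
    rw [del, exp_log_half (by norm_num)]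
    norm_num
  have hd2 : del (Real.log 401 / 2) = 1 / 800 := by
    rw [del, exp_log_half (by norm_num)]
    norm_num
  have hup := lintegral_polar_le ff_wt ht2
  have hlo := le_lintegral_polar ff_wt ht1 (by rw [hd1]; norm_num)
  rw [hd2] at hup
  rw [hd1] at hlo
  have hm1 := (gw_wt ff_wt (show (0 : ℝ) ≤ 1 / 20 by norm_num)).pos
  have hm2 := (gw_wt ff_wt (show (0 : ℝ) ≤ 1 / 800 by norm_num)).pos
  have hM := ff_wt.pos
  unfold volProd
  rw [lintegral_fp ff_wt ht1, lintegral_fp ff_wt ht2]
  have hM0 : ENNReal.ofReal (∫ z, ff z) ≠ 0 := by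
    rw [Ne, ENNReal.ofReal_eq_zero, not_le]
    exact hM
  refine ENNReal.mul_lt_mul_right hM0 ENNReal.ofReal_ne_top (hup.trans_lt (lt_of_lt_of_le ?_ hlo))
  rw [ENNReal.ofReal_lt_ofReal_iff (by
    have : (0 : ℝ) < 1 - 9 * (1 / 20) / 2 := by norm_num
    positivity)]
  have hs : (0.88 : ℝ) ≤ √(1 - 9 * (1 / 20) / 2) := by
    apply Real.le_sqrt_of_sq_le
    norm_num
  have hw1 := weight_le
  have hw2 := weight_ge
  rw [div_mul_eq_mul_div, div_lt_div_iff₀ hm2 hm1]
  set s := √(1 - 9 * (1 / 20) / 2 : ℝ)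
  have hpi := Real.pi_pos
  have h1 : ∫ z, gw ff (1 / 20) z < s * ∫ z, gw ff (1 / 800) z := by
    have h2 : 0.88 * (0.995 * ∫ z, ff z) ≤ s * ∫ z, gw ff (1 / 800) z :=
      mul_le_mul hs hw2 (by positivity) (by linarith)
    norm_num at hw1 h2 ⊢
    linarith
  calc 2 * π * ∫ z, gw ff (1 / 20) z < 2 * π * (s * ∫ z, gw ff (1 / 800) z) :=
        mul_lt_mul_of_pos_left h1 (by positivity)
    _ = _ := by ring

end Pool.Agent.Results.MP_31abd3_an.NotMonotone
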